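import Pool.Agent.Q66.SH.Stm

/-! Isometric embeddings of Schatten classes: the parts BA and WEYL. -/

set_option autoImplicit false

namespace Pool.Agent.Q278.SH

open Pool.Agent.Q66.SH
open scoped ENNReal

theorem t_BA : S_BA := by
  intro H _ _ _ T n t hB
  obtain ⟨V, hVf, hV, hVt⟩ := hB
  unfold apx
  refine le_iInf₂ fun F hF => ?_
  obtain ⟨W, hWf, hW, hFW⟩ := hF
  let L : V →ₗ[ℂ] W := ((F : H →ₗ[ℂ] H).domRestrict V).codRestrict W (fun x => hFW x)
  have hni : ¬ Function.Injective L := by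
    intro hi
    have := LinearMap.finrank_le_finrank_of_injective hi
    omega
  have hk : ∃ x : V, x ≠ 0 ∧ L x = 0 := by
    by_contra hc
    push Not at hc
    apply hni
    rw [← LinearMap.ker_eq_bot, LinearMap.ker_eq_bot']
    intro x hx
    by_contra h0
    exact hc x h0 hx
  obtain ⟨x, hx0, hx⟩ := hk
  have hFx : F (x : H) = 0 := by
    exact congrArg (Subtype.val) hx
  have hxn : 0 < ‖(x : H)‖ := by
    rw [norm_pos_iff]
    intro h
    exact hx0 (Subtype.ext h)
  have h1 := hVt x x.2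
  have h2 : T (x : H) = (T - F) (x : H) := by simp [hFx]
  have h3 : ‖(T - F) (x : H)‖ ≤ ‖T - F‖ * ‖(x : H)‖ := (T - F).le_opNorm _
  have h4 : t ≤ ‖T - F‖ := by
    rw [h2] at h1
    exact le_of_mul_le_mul_right (h1.trans h3) hxn
  calc ENNReal.ofReal t ≤ ENNReal.ofReal ‖T - F‖ := ENNReal.ofReal_le_ofReal h4
    _ = ‖T - F‖ₑ := ofReal_norm_eq_enorm _

theorem rank_add {H : Type} [NormedAddCommGroup H] [InnerProductSpace ℂ H] {F G : H →L[ℂ] H}
    {m n : ℕ} (hF : RankLE F m) (hG : RankLE G n) : RankLE (F + G) (m + n) := by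
  obtain ⟨W, hWf, hW, hFW⟩ := hF
  obtain ⟨W', hWf', hW', hFW'⟩ := hG
  refine ⟨W ⊔ W', inferInstance, ?_, fun x => ?_⟩
  · exact (Submodule.finrank_add_le_finrank_add_finrank W W').trans (add_le_add hW hW')
  · exact Submodule.add_mem_sup (hFW x) (hFW' x)

theorem t_WEYL : S_WEYL := by
  intro H _ _ _ m n S T
  unfold apx
  rw [iInf_subtype', iInf_subtype', iInf_subtype', ENNReal.iInf_add]
  refine le_iInf fun F => ?_
  rw [ENNReal.add_iInf]
  refine le_iInf fun G => ?_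
  refine (iInf_le _ (⟨F.1 + G.1, rank_add F.2 G.2⟩ : {F : H →L[ℂ] H // RankLE F (m + n)})).trans ?_
  have e : S + T - (F.1 + G.1) = (S - F.1) + (T - G.1) := by abel
  show ‖S + T - (F.1 + G.1)‖ₑ ≤ _
  rw [e]
  exact enorm_add_le _ _

end Pool.Agent.Q278.SH
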