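import Pool.Agent.Q66.SH.Stm

/-! Isometric embeddings of Schatten classes: the parts SGN and PE. -/

set_option autoImplicit false

namespace Pool.Agent.Q278.SH

open Pool.Agent.Q66.SH
open scoped ENNReal

theorem hs_par {H : Type} [NormedAddCommGroup H] [InnerProductSpace ℂ H] [CompleteSpace H]
    (b : ℕ → H) (k : ℕ) (S X : H →L[ℂ] H) :
    hs b k (S + X) + hs b k (S - X) = 2 * hs b k S + 2 * hs b k X := by
  unfold hs
  rw [← Finset.sum_add_distrib, Finset.mul_sum, Finset.mul_sum, ← Finset.sum_add_distrib]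
  refine Finset.sum_congr rfl fun i _ => ?_
  have h1 := parallelogram_law_with_norm ℂ (S (b i)) (X (b i))
  have h2 := parallelogram_law_with_norm ℂ (ContinuousLinearMap.adjoint S (b i))
    (ContinuousLinearMap.adjoint X (b i))
  rw [map_add, map_sub]
  simp only [ContinuousLinearMap.add_apply, ContinuousLinearMap.sub_apply]
  nlinarith

theorem sum_upd {H : Type} [NormedAddCommGroup H] [InnerProductSpace ℂ H]
    (M : ℕ) (X : ℕ → (H →L[ℂ] H)) (ε : ℕ → ℝ) (s : ℝ) :
    ∑ j ∈ Finset.range (M + 1), ((Function.update ε M s j : ℝ) : ℂ) • X j =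
      ∑ j ∈ Finset.range M, ((ε j : ℝ) : ℂ) • X j + (s : ℂ) • X M := by
  rw [Finset.sum_range_succ, Function.update_self]
  congr 1
  refine Finset.sum_congr rfl fun j hj => ?_
  rw [Function.update_of_ne (by have := Finset.mem_range.1 hj; omega)]

theorem upd_sign {ε : ℕ → ℝ} (h : ∀ i, ε i = 1 ∨ ε i = -1) (M : ℕ) {s : ℝ} (hs : s = 1 ∨ s = -1) :
    ∀ i, Function.update ε M s i = 1 ∨ Function.update ε M s i = -1 := by
  intro i
  by_cases hi : i = M
  · subst hi; rw [Function.update_self]; exact hs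
  · rw [Function.update_of_ne hi]; exact h i

theorem t_SGN : S_SGN := by
  intro H _ _ _ b k M X
  constructor
  · induction M with
    | zero => exact ⟨fun _ => 1, fun _ => Or.inl rfl, by simp [hs]⟩
    | succ M ih =>
      obtain ⟨ε, hε, hle⟩ := ih
      have hp := hs_par b k (∑ j ∈ Finset.range M, ((ε j : ℝ) : ℂ) • X j) (X M)
      rw [Finset.sum_range_succ (fun j => hs b k (X j))]
      by_cases hc : hs b k (∑ j ∈ Finset.range M, ((ε j : ℝ) : ℂ) • X j + X M) ≤
          hs b k (∑ j ∈ Finset.range M, ((ε j : ℝ) : ℂ) • X j) + hs b k (X M)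
      · refine ⟨Function.update ε M 1, upd_sign hε M (Or.inl rfl), ?_⟩
        rw [sum_upd]
        simp only [Complex.ofReal_one, one_smul]
        linarith
      · refine ⟨Function.update ε M (-1), upd_sign hε M (Or.inr rfl), ?_⟩
        rw [sum_upd]
        simp only [Complex.ofReal_neg, Complex.ofReal_one, neg_smul, one_smul, ← sub_eq_add_neg]
        push Not at hc
        linarith
  · induction M with
    | zero => exact ⟨fun _ => 1, fun _ => Or.inl rfl, by simp [hs]⟩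
    | succ M ih =>
      obtain ⟨ε, hε, hle⟩ := ih
      have hp := hs_par b k (∑ j ∈ Finset.range M, ((ε j : ℝ) : ℂ) • X j) (X M)
      rw [Finset.sum_range_succ (fun j => hs b k (X j))]
      by_cases hc : hs b k (∑ j ∈ Finset.range M, ((ε j : ℝ) : ℂ) • X j) + hs b k (X M) ≤
          hs b k (∑ j ∈ Finset.range M, ((ε j : ℝ) : ℂ) • X j + X M)
      · refine ⟨Function.update ε M 1, upd_sign hε M (Or.inl rfl), ?_⟩
        rw [sum_upd]
        simp only [Complex.ofReal_one, one_smul]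
        linarith
      · refine ⟨Function.update ε M (-1), upd_sign hε M (Or.inr rfl), ?_⟩
        rw [sum_upd]
        simp only [Complex.ofReal_neg, Complex.ofReal_one, neg_smul, one_smul, ← sub_eq_add_neg]
        push Not at hc
        linarith

theorem P_apply {H : Type} [NormedAddCommGroup H] [InnerProductSpace ℂ H]
    (b : HilbertBasis ℕ ℂ H) (k : ℕ) (x : H) :
    P b k x = ∑ i ∈ Finset.range k, inner ℂ (b i) x • b i := by
  unfold P rk1
  rw [ContinuousLinearMap.sum_apply]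
  rfl

theorem t_PE : S_PE := by
  intro H _ _ _ b k X
  have hA0 : 0 ≤ ∑ i ∈ Finset.range k, ‖X (b i)‖ ^ 2 := Finset.sum_nonneg fun _ _ => sq_nonneg _
  have hB0 : 0 ≤ ∑ i ∈ Finset.range k, ‖ContinuousLinearMap.adjoint X (b i)‖ ^ 2 :=
    Finset.sum_nonneg fun _ _ => sq_nonneg _
  have hhs : hs b k X = ∑ i ∈ Finset.range k, ‖X (b i)‖ ^ 2 +
      ∑ i ∈ Finset.range k, ‖ContinuousLinearMap.adjoint X (b i)‖ ^ 2 := by
    unfold hs; rw [Finset.sum_add_distrib]
  have key : ∀ (Y : H →L[ℂ] H) (A : ℝ), 0 ≤ A → (∀ x, ‖Y x‖ ^ 2 ≤ A * ‖x‖ ^ 2) → ‖Y‖ ^ 2 ≤ A := by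
    intro Y A hA h
    have h1 : ‖Y‖ ≤ Real.sqrt A := by
      refine Y.opNorm_le_bound (Real.sqrt_nonneg _) fun x => ?_
      have h2 := h x
      have h3 : (Real.sqrt A * ‖x‖) ^ 2 = A * ‖x‖ ^ 2 := by rw [mul_pow, Real.sq_sqrt hA]
      exact le_of_sq_le_sq (by rw [h3]; exact h2) (by positivity)
    calc ‖Y‖ ^ 2 ≤ Real.sqrt A ^ 2 := pow_le_pow_left₀ (norm_nonneg _) h1 2
      _ = A := Real.sq_sqrt hA
  have bes : ∀ x : H, ∑ i ∈ Finset.range k, ‖inner ℂ (b i) x‖ ^ 2 ≤ ‖x‖ ^ 2 := fun x =>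
    b.orthonormal.sum_inner_products_le (s := Finset.range k) (x := x)
  refine ⟨?_, ?_, ?_⟩
  · refine (key _ _ hA0 fun x => ?_).trans (by rw [hhs]; linarith)
    have e : (X * P b k) x = ∑ i ∈ Finset.range k, inner ℂ (b i) x • X (b i) := by
      show X (P b k x) = _
      rw [P_apply, map_sum]
      simp only [map_smul]
    rw [e]
    have h1 : ‖∑ i ∈ Finset.range k, inner ℂ (b i) x • X (b i)‖ ≤
        ∑ i ∈ Finset.range k, ‖inner ℂ (b i) x‖ * ‖X (b i)‖ := by
      refine (norm_sum_le _ _).trans (le_of_eq ?_)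
      simp only [norm_smul]
    have h2 := Finset.sum_mul_sq_le_sq_mul_sq (Finset.range k) (fun i => ‖inner ℂ (b i) x‖)
      (fun i => ‖X (b i)‖)
    calc ‖∑ i ∈ Finset.range k, inner ℂ (b i) x • X (b i)‖ ^ 2
        ≤ (∑ i ∈ Finset.range k, ‖inner ℂ (b i) x‖ * ‖X (b i)‖) ^ 2 :=
          pow_le_pow_left₀ (norm_nonneg _) h1 2
      _ ≤ (∑ i ∈ Finset.range k, ‖inner ℂ (b i) x‖ ^ 2) * ∑ i ∈ Finset.range k, ‖X (b i)‖ ^ 2 := h2
      _ ≤ ‖x‖ ^ 2 * ∑ i ∈ Finset.range k, ‖X (b i)‖ ^ 2 :=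
          mul_le_mul_of_nonneg_right (bes x) hA0
      _ = _ := mul_comm _ _
  · refine (key _ _ hB0 fun x => ?_).trans (by rw [hhs]; linarith)
    have e : ‖(P b k * X) x‖ ^ 2 = ∑ i ∈ Finset.range k, ‖inner ℂ (b i) (X x)‖ ^ 2 := by
      show ‖P b k (X x)‖ ^ 2 = _
      rw [P_apply]
      have h1 := b.orthonormal.inner_sum (fun i => inner ℂ (b i) (X x))
        (fun i => inner ℂ (b i) (X x)) (Finset.range k)
      have h2 : ((‖∑ i ∈ Finset.range k, inner ℂ (b i) (X x) • b i‖ ^ 2 : ℝ) : ℂ) =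
          ((∑ i ∈ Finset.range k, ‖inner ℂ (b i) (X x)‖ ^ 2 : ℝ) : ℂ) := by
        rw [inner_self_eq_norm_sq_to_K] at h1
        push_cast
        refine h1.trans (Finset.sum_congr rfl fun i _ => ?_)
        rw [mul_comm, Complex.mul_conj, Complex.normSq_eq_norm_sq]
        push_cast
        rfl
      exact_mod_cast h2
    rw [e, Finset.sum_mul]
    refine Finset.sum_le_sum fun i _ => ?_
    have h3 : inner ℂ (b i) (X x) = inner ℂ (ContinuousLinearMap.adjoint X (b i)) x :=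
      (ContinuousLinearMap.adjoint_inner_left X x (b i)).symm
    rw [h3, ← mul_pow]
    exact pow_le_pow_left₀ (norm_nonneg _) (norm_inner_le_norm _ _) 2
  · rw [hhs]
    have hb : ∀ i, ‖b i‖ = 1 := fun i => b.orthonormal.1 i
    have h1 : ∑ i ∈ Finset.range k, ‖X (b i)‖ ^ 2 ≤ k * ‖X‖ ^ 2 := by
      calc ∑ i ∈ Finset.range k, ‖X (b i)‖ ^ 2 ≤ ∑ _i ∈ Finset.range k, ‖X‖ ^ 2 := by
            refine Finset.sum_le_sum fun i _ => pow_le_pow_left₀ (norm_nonneg _) ?_ 2
            have := X.le_opNorm (b i)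
            rwa [hb i, mul_one] at this
        _ = k * ‖X‖ ^ 2 := by simp
    have h2 : ∑ i ∈ Finset.range k, ‖ContinuousLinearMap.adjoint X (b i)‖ ^ 2 ≤ k * ‖X‖ ^ 2 := by
      calc ∑ i ∈ Finset.range k, ‖ContinuousLinearMap.adjoint X (b i)‖ ^ 2
          ≤ ∑ _i ∈ Finset.range k, ‖X‖ ^ 2 := by
            refine Finset.sum_le_sum fun i _ => pow_le_pow_left₀ (norm_nonneg _) ?_ 2
            have := (ContinuousLinearMap.adjoint X).le_opNorm (b i)
            rwa [hb i, mul_one, LinearIsometryEquiv.norm_map] at this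
        _ = k * ‖X‖ ^ 2 := by simp
    linarith

end Pool.Agent.Q278.SH
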